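import Pool.Agent.Helper75.CR.St3

/-!
# Project CR (MP_265e56_al), module Q1: dichotomy for the `R`-relation on words with the same signed letters
-/

set_option autoImplicit false

namespace Pool.Agent.Helper79.CR

open Pool.Agent.Helper75.CR Helper1.IM

theorem SC.rfl1 (u : Wd) : SC u u := fun _ => Iff.rfl
theorem SC.symm1 {u v : Wd} (h : SC u v) : SC v u := fun c => (h c).symm
theorem SC.trans1 {u v w : Wd} (h : SC u v) (h' : SC v w) : SC u w := fun c => (h c).trans (h' c)

/-- (E): extending to the right by letters of the word. -/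
theorem ext1 (hL2 : Pool.Agent.Helper75.CR.StL2) (hM1 : Pool.Agent.Helper75.CR.StM1) (θ : FIC) (hc : CRF θ) (u t : Wd) (hu : u ≠ []) (ht : ∀ c ∈ t, c ∈ u) :
    Rs θ u (u ++ t) := by
  obtain ⟨⟨s, hs⟩, -, -⟩ := hL2 Bool SB (toP θ) (hM1 θ hc).1 u t hu (fun c hcm => by
    obtain ⟨x, y, hxy⟩ := List.append_of_mem (ht c hcm)
    exact ⟨x, y, (toP θ).of_eq (by rw [hxy]; simp)⟩)
  exact ⟨⟨t, θ.refl' _⟩, s, θ.symm' hs⟩

/-- One half of the exchange of the second and third factor. -/
theorem exch (θ : FIC) (hn : NRF θ) (p : Lt) (s t : Wd) (hs : s ≠ []) (ht : t ≠ []) :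
    ∃ r, θ.r ([p] ++ s ++ t) ([p] ++ t ++ s ++ r) := by
  obtain ⟨r, hr⟩ := hn
  let f : ℕ → Wd := fun i => if i = 0 then [p] else if i = 1 then s else t
  have hf : ∀ i, f i ≠ [] := by
    intro i
    simp only [f]
    split
    · simp
    · split
      · exact hs
      · exact ht
  have h1 := θ.sub' f hf hr
  refine ⟨sb f r, ?_⟩
  have e0 : f 0 = [p] := rfl
  have e1 : f 1 = s := rfl
  have e2 : f 2 = t := rfl
  rw [sb_append] at h1
  simp only [sb_X, sb_nil, e0, e1, e2, List.append_nil] at h1
  simpa [List.append_assoc] using h1

/-- (0): two words with the same signed letters and the same first letter. -/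
theorem zero1 (hL2 : Pool.Agent.Helper75.CR.StL2) (hM1 : Pool.Agent.Helper75.CR.StM1) (θ : FIC) (hc : CRF θ) (hn : NRF θ) (p : Lt) (s t : Wd)
    (h : SC (p :: s) (p :: t)) : Rs θ (p :: s) (p :: t) := by
  have hE1 : Rs θ (p :: s) (p :: s ++ t) :=
    ext1 hL2 hM1 θ hc (p :: s) t (by simp) (fun c hcm => (h c).2 (by simp [hcm]))
  have hE2 : Rs θ (p :: t) (p :: t ++ s) :=
    ext1 hL2 hM1 θ hc (p :: t) s (by simp) (fun c hcm => (h c).1 (by simp [hcm]))
  by_cases hs : s = []
  · subst hs
    exact hE1
  by_cases ht : t = []
  · subst ht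
    exact hE2.symm
  obtain ⟨r, hr⟩ := exch θ hn p s t hs ht
  obtain ⟨r', hr'⟩ := exch θ hn p t s ht hs
  have hm : Rs θ (p :: s ++ t) (p :: t ++ s) := by
    refine ⟨⟨r', ?_⟩, r, ?_⟩
    · simpa using θ.symm' hr'
    · simpa using θ.symm' hr
  exact (hE1.trans hm).trans hE2.symm

/-- Replacing the letter `p` by the letter `r`. -/
theorem subst1 (p r : Lt) (z : Wd) (hz : fl p ∉ z) :
    sb (fun i => if i = p.1 then (if p.2 then [fl r] else [r]) else [X i]) z = z.map (fun c => if c = p then r else c) := by
  induction z with
  | nil => rfl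
  | cons c z ih =>
    simp only [List.mem_cons, not_or] at hz
    rw [sb_cons, ih hz.2, List.map_cons]
    have key : (if c.2 then st ((fun i => if i = p.1 then (if p.2 then [fl r] else [r]) else [X i]) c.1)
        else (fun i => if i = p.1 then (if p.2 then [fl r] else [r]) else [X i]) c.1) = [if c = p then r else c] := by
      rcases c with ⟨i, b⟩
      rcases p with ⟨j, d⟩
      by_cases hij : i = j
      · subst hij
        have hbd : b = d := by
          by_contra hne
          apply hz.1
          simp only [fl, Prod.mk.injEq, true_and]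
          revert hne
          cases b <;> cases d <;> simp
        subst hbd
        cases b <;> simp
      · have h1 : ¬ ((i, b) = (j, d)) := by
          intro h
          exact hij (Prod.mk.inj h).1
        simp only [hij, h1, if_false]
        cases b <;> simp [X, fl]
    rw [key]
    rfl

/-- Case (ii): the first letter `p` of the first word occurs with one sign only. -/
theorem case2 (θ ρ : FIC) (h0 : ∀ (p : Lt) (s t : Wd), SC (p :: s) (p :: t) → Rs θ (p :: s) (p :: t)) (hl : Le θ ρ) (hsp : SCP ρ)
    (p q : Lt) (s t : Wd) (hpq : p ≠ q) (hsc : SC (p :: s) (q :: t)) (hR : Rs ρ (p :: s) (q :: t)) (hp : fl p ∉ p :: s) :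
    ∀ x y, SC x (p :: s) → SC y (p :: s) → Rs ρ x y := by
  have claim : ∀ r ∈ p :: s, ∃ x' y', SC (r :: x') (p :: s) ∧ SC (q :: y') (p :: s) ∧ Rs ρ (r :: x') (q :: y') := by
    intro r hr
    by_cases hrp : r = p
    · subst hrp
      exact ⟨s, t, SC.rfl1 _, SC.symm1 hsc, hR⟩
    obtain ⟨⟨y, hy⟩, -⟩ := hR
    have hy1 : SC (p :: s ++ y) (q :: t) := hsp _ _ hy
    have hy2 : SC (p :: s ++ y) (p :: s) := SC.trans1 hy1 (SC.symm1 hsc)
    have hf1 : fl p ∉ p :: s ++ y := fun h => hp ((hy2 _).1 h)
    have hf2 : fl p ∉ q :: t := fun h => hp ((hsc _).2 h)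
    let f : ℕ → Wd := fun i => if i = p.1 then (if p.2 then [fl r] else [r]) else [X i]
    have hfn : ∀ i, f i ≠ [] := by
      intro i
      simp only [f]
      split
      · split <;> simp
      · simp
    have h1 := ρ.mulR [p] (ρ.sub' f hfn hy)
    rw [subst1 p r _ hf1, subst1 p r _ hf2] at h1
    have hgen : ∀ z, SC z (p :: s) → SC (z.map (fun c => if c = p then r else c) ++ [p]) (p :: s) := by
      intro z hz c
      constructor
      · intro hcm
        rcases List.mem_append.1 hcm with hcm | hcm
        · obtain ⟨d, hd, hdc⟩ := List.mem_map.1 hcm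
          by_cases hdp : d = p
          · simp only [hdp, if_true] at hdc
            rw [← hdc]; exact hr
          · simp only [hdp, if_false] at hdc
            rw [← hdc]; exact (hz d).1 hd
        · rw [List.mem_singleton.1 hcm]; simp
      · intro hcm
        by_cases hcp : c = p
        · rw [hcp]; simp
        · apply List.mem_append_left
          exact List.mem_map.2 ⟨c, (hz c).2 hcm, by simp [hcp]⟩
    have e1 : (p :: s ++ y).map (fun c => if c = p then r else c) ++ [p] =
        r :: ((s ++ y).map (fun c => if c = p then r else c) ++ [p]) := by simp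
    have e2 : (q :: t).map (fun c => if c = p then r else c) ++ [p] =
        q :: (t.map (fun c => if c = p then r else c) ++ [p]) := by simp [Ne.symm hpq]
    have g1 := hgen _ hy2
    have g2 := hgen _ (SC.symm1 hsc)
    rw [e1] at h1 g1
    rw [e2] at h1 g2
    exact ⟨_, _, g1, g2, ⟨⟨[], by simpa using h1⟩, [], by simpa using ρ.symm' h1⟩⟩
  intro x y hx hy
  cases x with
  | nil => exact absurd ((hx p).2 (by simp)) (by simp)
  | cons r x1 =>
    cases y with
    | nil => exact absurd ((hy p).2 (by simp)) (by simp)
    | cons r' y1 =>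
      obtain ⟨a1, b1, g1, g2, g3⟩ := claim r ((hx r).1 (by simp))
      obtain ⟨a2, b2, k1, k2, k3⟩ := claim r' ((hy r').1 (by simp))
      have m1 : Rs ρ (r :: x1) (r :: a1) := (h0 r x1 a1 (SC.trans1 hx (SC.symm1 g1))).mono hl
      have m2 : Rs ρ (q :: b1) (q :: b2) := (h0 q b1 b2 (SC.trans1 g2 (SC.symm1 k2))).mono hl
      have m3 : Rs ρ (r' :: a2) (r' :: y1) := (h0 r' a2 y1 (SC.trans1 k1 (SC.symm1 hy))).mono hl
      exact (((m1.trans g3).trans m2).trans k3.symm).trans m3

theorem hQ1 (hL2 : Pool.Agent.Helper75.CR.StL2) (hM1 : Pool.Agent.Helper75.CR.StM1) (hN2 : Pool.Agent.Helper75.CR.StN2) :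
    Pool.Agent.Helper75.CR.StQ1 := by
  intro θ ρ hc hpi hn hl hsp a w ha hsc hR
  have h0 : ∀ (p : Lt) (s t : Wd), SC (p :: s) (p :: t) → Rs θ (p :: s) (p :: t) :=
    fun p s t h => zero1 hL2 hM1 θ hc hn p s t h
  cases a with
  | nil => exact absurd rfl ha
  | cons p s =>
    cases w with
    | nil => exact absurd ((hsc p).1 (by simp)) (by simp)
    | cons q t =>
      by_cases hpq : p = q
      · subst hpq
        exact Or.inl (h0 p s t hsc)
      by_cases hfp : fl p ∈ p :: s
      · by_cases hfq : fl q ∈ p :: s
        · left
          have hq : q ∈ p :: s := (hsc q).2 (by simp)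
          have h1 : θ.r [p, fl p, q, fl q] [q, fl q, p, fl p] := by
            apply hN2 θ hc hpi
            · simp
            · simp
            · intro c hcm
              simp only [List.mem_cons, List.not_mem_nil, or_false] at hcm ⊢
              rcases hcm with rfl | rfl | rfl | rfl <;> simp
            · intro c hcm
              simp only [List.mem_cons, List.not_mem_nil, or_false] at hcm ⊢
              rcases hcm with rfl | rfl | rfl | rfl <;> simp
            · intro c
              simp only [List.mem_cons, List.not_mem_nil, or_false]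
              tauto
          have h2 := θ.mulR (p :: s) h1
          have s1 : SC (p :: s) ([p, fl p, q, fl q] ++ (p :: s)) := by
            intro c
            constructor
            · intro hcm
              exact List.mem_append_right _ hcm
            · intro hcm
              rcases List.mem_append.1 hcm with hcm | hcm
              · simp only [List.mem_cons, List.not_mem_nil, or_false] at hcm
                rcases hcm with rfl | rfl | rfl | rfl
                · simp
                · exact hfp
                · exact hq
                · exact hfq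
              · exact hcm
          have s2 : SC (q :: t) ([q, fl q, p, fl p] ++ (p :: s)) := by
            intro c
            constructor
            · intro hcm
              exact List.mem_append_right _ ((hsc c).2 hcm)
            · intro hcm
              apply (hsc c).1
              rcases List.mem_append.1 hcm with hcm | hcm
              · simp only [List.mem_cons, List.not_mem_nil, or_false] at hcm
                rcases hcm with rfl | rfl | rfl | rfl
                · exact hq
                · exact hfq
                · simp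
                · exact hfp
              · exact hcm
          have r1 : Rs θ (p :: s) ([p, fl p, q, fl q] ++ (p :: s)) := h0 p s _ s1
          have r2 : Rs θ (q :: t) ([q, fl q, p, fl p] ++ (p :: s)) := h0 q t _ s2
          have r3 : Rs θ ([p, fl p, q, fl q] ++ (p :: s)) ([q, fl q, p, fl p] ++ (p :: s)) :=
            ⟨⟨[], by simpa using h2⟩, [], by simpa using θ.symm' h2⟩
          exact (r1.trans r3).trans r2.symm
        · right
          intro x y hx hy
          have hfq' : fl q ∉ q :: t := fun h => hfq ((hsc _).2 h)
          exact case2 θ ρ h0 hl hsp q p t s (Ne.symm hpq) (SC.symm1 hsc) hR.symm hfq' x y (SC.trans1 hx hsc) (SC.trans1 hy hsc)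
      · right
        exact case2 θ ρ h0 hl hsp p q s t hpq hsc hR hfp

end Pool.Agent.Helper79.CR
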