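import Pool.Agent.Helper75.CR.St

set_option autoImplicit false

/-!
# Project CR, module K: induction on the size of the content
-/

namespace Pool.Agent.Helper79.CR

open Pool.Agent.Helper75.CR Helper1.IM

theorem hK (hH : Pool.Agent.Helper75.CR.StH) (hJ : Pool.Agent.Helper75.CR.StJ) :
    Pool.Agent.Helper75.CR.StK := by
  intro B S θ hb m
  induction m generalizing S with
  | zero =>
    intro α β _ _ hα hβ u w v hc hu hw
    have h1 : u = [] := cn_eq_empty.1 (Finset.card_eq_zero.1 hc)
    have h2 : w = [] := cn_eq_empty.1 (by rw [← hα u w hu, h1]; rfl)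
    have h3 : v = [] := cn_eq_empty.1 (by rw [← hβ w v hw, h2]; rfl)
    refine ⟨[], ?_, ?_⟩
    · rw [h1]; exact β.refl' _
    · rw [h3]; exact α.refl' _
  | succ m ih =>
    rcases Nat.eq_zero_or_pos m with rfl | hm
    · exact hJ B S θ 1 hb le_rfl (hH B S θ hb).1 (hH B S.rev θ.rev hb.rev).1
    · exact hJ B S θ (m + 1) hb (by omega) ((hH B S θ hb).2 m hm (ih S θ hb))
        ((hH B S.rev θ.rev hb.rev).2 m hm (ih S.rev θ.rev hb.rev))

end Pool.Agent.Helper79.CR
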